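import Pool.Agent.W743.HP.Stm

/-!
Project HP (helper743), part HP-CONT: continuity of the radial solution in the parameters.
-/

set_option autoImplicit false

open Set Filter Topology MeasureTheory

namespace Pool.Agent.W405.HPP

open Pool.Agent.W743.HP

theorem cf_cont (N j : ℕ) : Continuous (fun α : ℝ => (cf N α j).1) ∧
    Continuous (fun α : ℝ => (cf N α j).2.1) ∧ Continuous (fun α : ℝ => (cf N α j).2.2) := by
  induction j with
  | zero =>
    refine ⟨?_, ?_, ?_⟩
    · simp only [cf]; exact continuous_const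
    · simp only [cf]; exact continuous_const
    · simp only [cf]; exact continuous_const
  | succ j ih =>
    obtain ⟨h1, h2, h3⟩ := ih
    have h4 : Continuous (fun α : ℝ => (cf N α j).2.2 - α * (cf N α j).1) :=
      h3.sub (continuous_id.mul h1)
    refine ⟨?_, ?_, ?_⟩
    · simp only [cf]
      exact (h2.add h4).div_const _
    · simp only [cf]
      exact h2.add h4
    · simp only [cf]
      exact h4

theorem c_cont (N j : ℕ) : Continuous (fun α : ℝ => c N α j) := (cf_cont N j).1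

/-- a coordinate as a continuous linear functional -/
noncomputable def coor {ι : Type} [DecidableEq ι] (i : ι) : L1 ι →L[ℝ] ℝ :=
  lift (fun k => if k = i then (1 : ℝ) else 0) 1 (fun k => by split_ifs <;> simp)

theorem coor_apply {ι : Type} [DecidableEq ι] (i : ι) (a : L1 ι) : coor i a = a i := by
  unfold coor
  rw [lift_apply, tsum_eq_single i]
  · simp
  · intro k hk
    simp [hk]

theorem cont : S_BD → S_REG → S_CONT := by
  intro hBD hREG x hx hpos
  have hab : aL ≤ bL := by unfold aL bL; norm_num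
  have hα : ∀ α ∈ Icc aL bL, 0 ≤ α ∧ α ≤ ((25 : ℕ) : ℝ) := by
    intro α hα
    have h1 := hα.1
    have h2 := hα.2
    unfold aL at h1
    unfold bL at h2
    constructor
    · linarith [show (0 : ℝ) ≤ 121239 / 5000 by norm_num]
    · refine h2.trans ?_
      norm_num
  have hxb : ∀ α ∈ Icc aL bL, 0 < x α ∧ x α ≤ 188 / 500 := by
    intro α hα
    have h1 := (hpos α hα).1.1
    have h2 := (hpos α hα).1.2
    unfold xl at h1
    unfold xh at h2
    exact ⟨lt_of_lt_of_le (by norm_num) h1, h2⟩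
  have hGc : ContinuousOn (fun α => G 0 α (x α)) (Icc aL bL) := by
    have h1 := (hREG.2 0).1
    have h2 : ContinuousOn (fun α : ℝ => (α, x α)) (Icc aL bL) := continuousOn_id.prodMk hx
    refine h1.comp h2 ?_
    intro α hα'
    refine ⟨(hα α hα').1, ?_, ?_⟩
    · have := (hxb α hα').1
      change -1 < x α
      linarith
    · have := (hxb α hα').2
      change x α < 1
      linarith [show (188 : ℝ) / 500 < 1 by norm_num]
  obtain ⟨α0, hα0, hmin⟩ := isCompact_Icc.exists_isMinOn (nonempty_Icc.2 hab) hGc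
  obtain ⟨g, hg⟩ : ∃ g, g = G 0 α0 (x α0) := ⟨_, rfl⟩
  have hg0 : 0 < g := by rw [hg]; exact (hpos α0 hα0).2
  have hgle : ∀ α ∈ Icc aL bL, g ≤ G 0 α (x α) := fun α hα' => by
    rw [hg]
    exact isMinOn_iff.1 hmin α hα'
  have hy2 : ∀ α, 2 * x α / 2 = x α := fun α => by ring
  -- the terms
  have hterm : ∀ j : ℕ, ContinuousOn (fun α => (mh α (2 * x α) j) • (ue ((0, j) : ℕ × ℕ) : E))
      (Icc aL bL) := by
    intro j
    suffices hmh : ContinuousOn (fun α => mh α (2 * x α) j) (Icc aL bL) from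
      hmh.smul continuousOn_const
    unfold mh uh
    simp only [hy2]
    have hx2 : ContinuousOn (fun α => 2 * x α) (Icc aL bL) := continuousOn_const.mul hx
    have h1 : ContinuousOn (fun α => c 0 α (j + 1) * (2 * x α) ^ (j + 1)) (Icc aL bL) :=
      (c_cont 0 (j + 1)).continuousOn.mul (hx2.pow (j + 1))
    have h2 : ContinuousOn (fun α => c 0 α (j + 1) * (2 * x α) ^ (j + 1) / G 0 α (x α))
        (Icc aL bL) := h1.div hGc fun α hα' => (hpos α hα').2.ne'
    have h3 : ContinuousOn (fun α => ((j : ℝ) + 1) ^ 2 *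
        (c 0 α (j + 1) * (2 * x α) ^ (j + 1) / G 0 α (x α))) (Icc aL bL) :=
      continuousOn_const.mul h2
    exact h3.neg
  obtain ⟨r, hr⟩ : ∃ r : ℝ, r = 376 / 500 := ⟨_, rfl⟩
  have hr0 : 0 < r := by rw [hr]; norm_num
  have hr1 : ‖r‖ < 1 := by
    rw [Real.norm_eq_abs, abs_of_pos hr0, hr]
    norm_num
  have hsum : Summable (fun j : ℕ => ((j + 26 : ℕ) : ℝ) ^ 27 * r ^ (j + 26) * (1 / (r ^ 25 * g))) := by
    have h1 : Summable (fun n : ℕ => ((n : ℕ) : ℝ) ^ 27 * r ^ n) :=
      summable_pow_mul_geometric_of_norm_lt_one 27 hr1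
    have h2 := (summable_nat_add_iff (f := fun n : ℕ => ((n : ℕ) : ℝ) ^ 27 * r ^ n) 26).2 h1
    exact h2.mul_right _
  have hbd : ∀ (j : ℕ), ∀ α ∈ Icc aL bL, ‖(mh α (2 * x α) j) • (ue ((0, j) : ℕ × ℕ) : E)‖ ≤
      ((j + 26 : ℕ) : ℝ) ^ 27 * r ^ (j + 26) * (1 / (r ^ 25 * g)) := by
    intro j α hα'
    rw [norm_smul, norm_ue, mul_one, Real.norm_eq_abs]
    unfold mh uh
    rw [hy2, abs_neg, abs_mul, abs_div, abs_mul, abs_pow, abs_pow]
    have hGp := (hpos α hα').2
    have hx0 := (hxb α hα').1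
    have h1 : |c 0 α (j + 1)| ≤ ((j + 26 : ℕ) : ℝ) ^ 25 := by
      refine ((hBD.1 0 α 25 (hα α hα').1 (hα α hα').2 (j + 1)).1).trans ?_
      have h2 : (25 + (j + 1)).choose (j + 1) ≤ (j + 26) ^ 25 := by
        rw [← Nat.choose_symm_add]
        have h3 := Nat.choose_le_pow (25 + (j + 1)) 25
        have h4 : 25 + (j + 1) = j + 26 := by ring
        rw [h4] at h3 ⊢
        exact h3
      exact_mod_cast h2
    have h2 : |2 * x α| ≤ r := by
      rw [abs_of_pos (by positivity), hr]
      have := (hxb α hα').2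
      linarith
    have h3 : |2 * x α| ^ (j + 1) ≤ r ^ (j + 1) := pow_le_pow_left₀ (abs_nonneg _) h2 _
    have h4 : |(j : ℝ) + 1| ^ 2 ≤ ((j + 26 : ℕ) : ℝ) ^ 2 := by
      rw [abs_of_nonneg (by positivity)]
      refine pow_le_pow_left₀ (by positivity) ?_ 2
      push_cast
      linarith
    rw [abs_of_pos hGp]
    calc |(j : ℝ) + 1| ^ 2 * (|c 0 α (j + 1)| * |2 * x α| ^ (j + 1) / G 0 α (x α))
        ≤ ((j + 26 : ℕ) : ℝ) ^ 2 * (((j + 26 : ℕ) : ℝ) ^ 25 * r ^ (j + 1) / g) := by
          refine mul_le_mul h4 ?_ (by positivity) (by positivity)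
          exact div_le_div₀ (by positivity) (mul_le_mul h1 h3 (by positivity) (by positivity)) hg0
            (hgle α hα')
      _ = ((j + 26 : ℕ) : ℝ) ^ 27 * r ^ (j + 26) * (1 / (r ^ 25 * g)) := by
          have h5 : r ^ (j + 26) = r ^ (j + 1) * r ^ 25 := by rw [← pow_add]
          rw [h5]
          field_simp
  refine ⟨fun α => ∑' j : ℕ, (mh α (2 * x α) j) • (ue ((0, j) : ℕ × ℕ) : E),
    continuousOn_tsum hterm hsum hbd, ?_⟩
  intro α hα' n k
  have hs : Summable (fun j : ℕ => (mh α (2 * x α) j) • (ue ((0, j) : ℕ × ℕ) : E)) :=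
    Summable.of_norm_bounded hsum (fun j => hbd j α hα')
  have h1 := (hs.hasSum).mapL (coor ((n, k) : ℕ × ℕ))
  have h2 : ∀ j : ℕ, coor ((n, k) : ℕ × ℕ) ((mh α (2 * x α) j) • (ue ((0, j) : ℕ × ℕ) : E)) =
      mh α (2 * x α) j * (if ((0, j) : ℕ × ℕ) = (n, k) then 1 else 0) := by
    intro j
    rw [map_smul, smul_eq_mul]
    congr 1
    unfold coor
    rw [lift_ue]
  rw [← coor_apply]
  refine h1.unique ?_
  simp only [h2]
  by_cases hn : n = 0
  · subst hn
    rw [if_pos rfl]
    have h3 := hasSum_ite_eq k (mh α (2 * x α) k)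
    refine h3.congr_fun fun j => ?_
    by_cases hjk : j = k
    · subst hjk
      simp
    · have : ¬ ((0, j) : ℕ × ℕ) = (0, k) := by
        intro h
        exact hjk (Prod.mk.inj h).2
      simp [hjk]
  · rw [if_neg hn]
    refine hasSum_zero.congr_fun fun j => ?_
    have : ¬ ((0, j) : ℕ × ℕ) = (n, k) := by
      intro h
      exact hn (Prod.mk.inj h).1.symm
    simp [this]

end Pool.Agent.W405.HPP
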